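import Mathlib
import Pool.Agent.N848.OL.Stm

set_option autoImplicit false

/-! # Project OL (helper848), leaf RTF: `p`-th roots in a Galois extension -/

namespace Pool.Agent.N950.OL

theorem t_RTF : Pool.Agent.N848.OL.S_RTF := by
  intro p hp F F' _ _ _ _ _ hG hz x y h
  have hp0 : p ≠ 0 := hp.out.ne_zero
  by_cases hy : y = 0
  · subst hy
    rw [zero_pow hp0] at h
    have hx : x = 0 := by
      apply (algebraMap F F').injective
      rw [h, map_zero]
    exact ⟨0, by rw [hx, zero_pow hp0], map_zero _⟩
  · have hfd : FiniteDimensional F F' := Module.Finite.of_restrictScalars_finite ℚ F F'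
    have hfix : ∀ τ : F' ≃ₐ[F] F', τ y = y := by
      intro τ
      have h1 : (τ y) ^ p = y ^ p := by
        rw [← map_pow, ← h, AlgEquiv.commutes]
      have h2 : (τ y / y) ^ p = 1 := by
        rw [div_pow, h1, div_self (pow_ne_zero _ hy)]
      exact (div_eq_one_iff_eq hy).1 (hz _ h2)
    have hb : y ∈ (⊥ : IntermediateField F F') := (IsGalois.mem_bot_iff_fixed y).2 hfix
    obtain ⟨z, hz'⟩ := IntermediateField.mem_bot.1 hb
    refine ⟨z, ?_, hz'⟩
    apply (algebraMap F F').injective
    rw [h, map_pow, hz']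

end Pool.Agent.N950.OL
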